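import Pool.Agent.Results.MP_8b7eba_nt.BothCurvesEveryGraph
import Pool.Agent.Results.MP_4a9ea6_nt.TwoPartTwistsX14
import Pool.Agent.Results.MP_4a9ea6_nt.TwoPartTwistsX49

/-!
# The 2-part of the formula at the central point for all the `2 ^ k` twists by the subproducts of `k`
# primes of a bounded interval, with every graph of quadratic residues, for finitely many twists of
# `X_0(14)` and of `X_0(49)` at the same time

For a quadratic twist `E` of the curve `X_0(14)` (no complex multiplication) or `X_0(49)` (complex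
multiplication) let `z = #E(ℚ)_tors² L(E, 1) / (Ω ∏ c_p)`, and say that the 2-part of the formula holds
with `z` a unit if the equation of `E` is minimal, `E(ℚ)` is finite, `Ш(E/ℚ)[2^∞] = 0`, `L(E, s)` is
entire, `L(E, 1) ≠ 0` and `z` is a unit at two.

Let `𝒩` be a finite set of pairs of one of the two curves and a number `N` of its class (for `X_0(14)`:
of both signs), `k ≥ 0`, and `m` a multiple of `56` and of all the `N`. There are prime numbers `q`, `q'`
and a constant `C` such that for every class `r` modulo `m` which is prime to `m`, `1` modulo `8`, a square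
modulo `7` and modulo the prime factors of the `N`, there are signed numbers `M ∈ {1, -q}` (for `X_0(14)`),
`M' ∈ {1, q'}` (for `X_0(49)`) such that for infinitely many `n` and for every graph `G` with `k` vertices
there are prime numbers `p_1 < ⋯ < p_k` in `[n, n + C]`, all `≡ r` modulo `m`, with `p_j` a nonsquare
modulo `p_i` iff `{i, j}` is an edge of `G`, with the following property for all the curves of `𝒩` and all
the `2 ^ k` sets `T`: the 2-part of the formula holds with `z` a unit for the twist by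
`N M ∏_{i ∈ T} p_i` if and only if the twist by `N` has finitely many rational points and no element of
order two in `Ш`, and the subgraph of `G` induced on `T` has an odd number of rooted spanning forests; and
this is the case iff the twist by `N M ∏_{i ∈ T} p_i` has finitely many rational points and no element of
order two in `Ш` (the curve `X_0(14)` itself is left out).

The criteria for a single curve are those of helper428 (`MP_4a9ea6_nt/TwoPartTwistsX14`,
`TwoPartTwistsX49`), the primes and the matrices are those of `MP_8b7eba_nt/BothCurvesEveryGraph`.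
-/

set_option autoImplicit false

open NumberField IsDedekindDomain

namespace Pool.Agent.Results.MP_9c97e9_nt.EveryGraphTwoPart

open Pool.Agent.Results.MP_8b7eba_nt.BothCurvesEveryGraph (Adm forest)

/-- The 2-part of the formula, with `z` a unit at two, for the twist by `D` of `X_0(49)` (`c = true`,
`D > 0`) and of `X_0(14)` (`c = false`): the equation of the twist by `D` of `X_0(14)` (`X_0(49)`) is
`y² + x y + y = x³ + ((D - 1)/4) x² + ((9 D² - 1)/2) x - (23 D³ + 1)/4`
(`y² + x y = x³ - (3 D + 1)/4 x² - 2 D² x - D³`); it is minimal, the group of the rational points is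
finite, `Ш[2^∞] = 0`, the L-function is entire and does not vanish at `1`, and `z` is a unit at two. -/
def TwoPart (c : Bool) (D : ℤ) : Prop :=
  if c = true then
    (∀ v : HeightOneSpectrum (𝓞 ℚ), Pool.Agent.Results.MP_4a9ea6_nt.TwoPartTwistsX49.MinimalAt
      (Pool.Agent.Results.MP_4a9ea6_nt.TwoPartTwistsX49.E D.toNat) v) ∧
    Pool.Agent.Results.MP_4a9ea6_nt.TwoPartTwistsX49.TwoPart D.toNat
  else Pool.Agent.Results.MP_4a9ea6_nt.TwoPartTwistsX14.TwoPart
    (Pool.Agent.Results.MP_4a9ea6_nt.TwoPartTwistsX14.twist D)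

/-- The same twists have finitely many rational points and no element of order two in `Ш`. -/
def RankZeroShaTwo (c : Bool) (D : ℤ) : Prop :=
  if c = true then
    Finite (Pool.Agent.Results.MP_4a9ea6_nt.TwoPartTwistsX49.E D.toNat).toAffine.Point ∧
    ∀ x : Pool.Agent.TH841.NF.D.Sha (Pool.Agent.Results.MP_4a9ea6_nt.TwoPartTwistsX49.E D.toNat),
      2 • x = 0 → x = 0
  else Pool.Agent.Results.MP_4a9ea6_nt.TwoPartTwistsX14.NoSelmer D

section proof

open Pool.Agent.Results.MP_8b7eba_nt (BothCurvesEveryGraph.class14_iff BothCurvesEveryGraph.class49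
  BothCurvesEveryGraph.crit14 BothCurvesEveryGraph.crit49)
open Pool.Agent.Results.MP_4a9ea6_nt (TwoPartTwistsX49.two_iff TwoPartTwistsX49.core
  TwoPartTwistsX14.adm_iff TwoPartTwistsX14.criterion TwoPartTwistsX14.R_det)

open Pool.Agent.Y700 (WM EQ) in
open Pool.Agent.Y687.MQ (AdmD matD of_admD SP IP disc matD_eq matT_iff det_ind) in
/-- the algebraic criterion for all `D` of the class, `D = 1` included -/
theorem selD {D : ℤ} (h : AdmD D) : (Finite (EQ (WM D)).toAffine.Point ∧
    ∀ x : Pool.Agent.TH841.SH.D.Sha (EQ (WM D)), x + x = 0 → x = 0) ↔ (matD D).det ≠ 0 := by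
  classical
  obtain ⟨hP, hT, hC, hD⟩ := of_admD h
  have hP' : ∀ p ∈ SP D, Pool.Agent.Y17.N.Sp p := hP
  have hm : Pool.Agent.Y687.DD (IP D) = (Pool.Agent.Z700.pr (IP D) : ℤ) ∨
      Pool.Agent.Y687.DD (IP D) = -(Pool.Agent.Z700.pr (IP D) : ℤ) := by
    rw [Pool.Agent.Z705.DD_eq]
    rcases Nat.even_or_odd ((IP D).filter fun q => ¬ q % 4 = 1).card with he | ho
    · left; rw [he.neg_one_pow, one_mul]
    · right; rw [ho.neg_one_pow, neg_one_mul]
  have hdet : (matD D).det ≠ 0 ↔ Odd (Pool.Agent.Z700.Yd Pool.Agent.Z700.lres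
      (Pool.Agent.Y687.N.xrZ (Pool.Agent.Y687.DD (IP D))) (SP D)) := by
    rw [matD_eq, matT_iff hP hT, det_ind hP hT hm]
  have hWD : WM D = WM ((Pool.Agent.Z700.pr (SP D) : ℤ) * Pool.Agent.Y687.DD (IP D)) := by
    conv_lhs => rw [← hD]
    rfl
  rw [hdet, hWD]
  exact (Pool.Agent.Z704.equiv Pool.Agent.Z702.f_COC Pool.Agent.Z702.f_LOT Pool.Agent.Z702.f_COB
    Pool.Agent.Z702.f_TOR Pool.Agent.Z702.f_LQ Pool.Agent.Z702.f_LG Pool.Agent.Z702.f_LP
    Pool.Agent.Z702.f_LIN Pool.Agent.Z702.f_TRN Pool.Agent.Z705.f_SELA Pool.Agent.Z705.f_SELB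
    (Pool.Agent.Z705.cnd hP' hT)).symm

theorem adm14 {D : ℤ} (h : Adm false D) : Pool.Agent.Y687.MQ.AdmD D :=
  (BothCurvesEveryGraph.class14_iff D).1 (by
    unfold Adm at h
    simpa using h)

theorem sel14 {D : ℤ} (h : Adm false D) : RankZeroShaTwo false D ↔
    Pool.Agent.Results.MP_8b7eba_nt.BothCurvesEveryGraph.RankZeroShaTwo false D := by
  have h2 := adm14 h
  rw [BothCurvesEveryGraph.crit14 h2, ← selD h2]
  unfold RankZeroShaTwo
  rw [if_neg (by decide)]
  unfold Pool.Agent.Results.MP_4a9ea6_nt.TwoPartTwistsX14.NoSelmer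
  refine and_congr Iff.rfl (forall_congr' fun x => ?_)
  rw [two_nsmul]
  exact Iff.rfl

theorem two14 {D : ℤ} (h : Adm false D) (h1 : D ≠ 1) : TwoPart false D ↔
    Pool.Agent.Results.MP_8b7eba_nt.BothCurvesEveryGraph.RankZeroShaTwo false D := by
  have h2 := adm14 h
  have h3 := (TwoPartTwistsX14.adm_iff D).2 h2
  have h4 := (TwoPartTwistsX14.criterion h3 h1).2.2.2
  rw [TwoPartTwistsX14.R_det h2, ← BothCurvesEveryGraph.crit14 h2] at h4
  unfold TwoPart
  rw [if_neg (by decide)]
  exact h4.symm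

theorem sel49 {D : ℤ} (h : Adm true D) : RankZeroShaTwo true D ↔
    Pool.Agent.Results.MP_8b7eba_nt.BothCurvesEveryGraph.RankZeroShaTwo true D := by
  obtain ⟨D', rfl, hD⟩ := BothCurvesEveryGraph.class49 (N := D) (by
    unfold Adm at h
    simpa using h)
  rw [BothCurvesEveryGraph.crit49 hD, ← (TwoPartTwistsX49.core hD).2.2.2.1]
  unfold RankZeroShaTwo
  rw [if_pos rfl, Int.toNat_natCast]
  simp only [two_nsmul]

theorem two49 {D : ℤ} (h : Adm true D) : TwoPart true D ↔
    Pool.Agent.Results.MP_8b7eba_nt.BothCurvesEveryGraph.RankZeroShaTwo true D := by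
  obtain ⟨D', rfl, hD⟩ := BothCurvesEveryGraph.class49 (N := D) (by
    unfold Adm at h
    simpa using h)
  rw [BothCurvesEveryGraph.crit49 hD, ← TwoPartTwistsX49.two_iff hD]
  unfold TwoPart
  rw [if_pos rfl, Int.toNat_natCast]
  exact and_iff_right (TwoPartTwistsX49.core hD).1

theorem sel {c : Bool} {D : ℤ} (h : Adm c D) : RankZeroShaTwo c D ↔
    Pool.Agent.Results.MP_8b7eba_nt.BothCurvesEveryGraph.RankZeroShaTwo c D := by
  cases c
  · exact sel14 h
  · exact sel49 h

theorem two {c : Bool} {D : ℤ} (h : Adm c D) (h1 : c = true ∨ D ≠ 1) : TwoPart c D ↔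
    Pool.Agent.Results.MP_8b7eba_nt.BothCurvesEveryGraph.RankZeroShaTwo c D := by
  cases c
  · exact two14 h (by simpa using h1)
  · exact two49 h

end proof

/-- **The 2-part of the formula for finite families of twists of `X_0(14)` and of `X_0(49)`, multiplied
by all the products of primes of a bounded interval with any given graph of quadratic residues.** -/
theorem result (𝒩 : Finset (Bool × ℤ)) (h𝒩 : ∀ e ∈ 𝒩, Adm e.1 e.2) (k m : ℕ) (hm : 0 < m)
    (h56 : 56 ∣ m) (h𝒩m : ∀ e ∈ 𝒩, e.2 ∣ (m : ℤ)) :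
    ∃ q q' C : ℕ, (q.Prime ∧ ¬ q ∣ m) ∧ (q'.Prime ∧ ¬ q' ∣ m) ∧ ∀ r : ℕ, r.Coprime m → r % 8 = 1 →
      (r % 7 = 1 ∨ r % 7 = 2 ∨ r % 7 = 4) →
      (∀ e ∈ 𝒩, ∀ l : ℕ, l.Prime → (l : ℤ) ∣ e.2 → IsSquare ((r : ℕ) : ZMod l)) →
      ∃ M : Bool → ℤ, (M false = 1 ∨ M false = -q) ∧ (M true = 1 ∨ M true = q') ∧
        {n : ℕ | ∀ G : SimpleGraph (Fin k), ∃ p : Fin k → ℕ, StrictMono p ∧
          (∀ i, (p i).Prime ∧ p i ≡ r [MOD m] ∧ n ≤ p i ∧ p i ≤ n + C) ∧
          (∀ i j, i ≠ j → (G.Adj i j ↔ ¬ IsSquare ((p j : ℕ) : ZMod (p i)))) ∧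
          ∀ e ∈ 𝒩, ∀ T : Finset (Fin k),
            Adm e.1 (e.2 * M e.1 * ∏ i ∈ T, (p i : ℤ)) ∧
            (RankZeroShaTwo e.1 (e.2 * M e.1 * ∏ i ∈ T, (p i : ℤ)) ↔
              RankZeroShaTwo e.1 e.2 ∧ (forest G T).det ≠ 0) ∧
            (e.1 = true ∨ e.2 * M e.1 * ∏ i ∈ T, (p i : ℤ) ≠ 1 →
              (TwoPart e.1 (e.2 * M e.1 * ∏ i ∈ T, (p i : ℤ)) ↔
                RankZeroShaTwo e.1 (e.2 * M e.1 * ∏ i ∈ T, (p i : ℤ))))}.Infinite := by
  obtain ⟨q, q', C, hq, hq', h⟩ :=
    Pool.Agent.Results.MP_8b7eba_nt.BothCurvesEveryGraph.main 𝒩 h𝒩 k m hm h56 h𝒩m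
  refine ⟨q, q', C, hq, hq', fun r hr hr8 hr7 hrN => ?_⟩
  obtain ⟨M, hM1, hM2, hinf⟩ := h r hr hr8 hr7 hrN
  refine ⟨M, hM1, hM2, hinf.mono fun n hn G => ?_⟩
  obtain ⟨p, hp, h3, h4, h5⟩ := hn G
  refine ⟨p, hp, h3, h4, fun e he T => ?_⟩
  obtain ⟨h6, h7, -⟩ := h5 e he T
  refine ⟨h6, ?_, fun h8 => (two h6 h8).trans (sel h6).symm⟩
  rw [sel h6, h7, sel (h𝒩 e he)]

end Pool.Agent.Results.MP_9c97e9_nt.EveryGraphTwoPart
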