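import Pool.Agent.T2H26.CM.Rat
import Pool.Agent.Results.MP_4a9ea6_nt.ThreePartCubeFree

/-!
# The 3-part of the formula at the central point for all the cubic twists by the products of powers of an
# infinite sequence of primes, with every matrix of cubic residue symbols

`E_D : y² + D y = x³` is the cubic twist by `D` of the curve `y² + y = x³` of conductor 27. Let
`u = L(E_D, 1) #E_D(ℚ)_tors² / (Ω ∏ c_p)`, which is zero or the order of `Ш(E_D/ℚ)` according to the
conjecture.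

Let `q` be a prime, `2` modulo `3`, and let `A_ij` (`i ≠ j`), `d_i` be arbitrary elements of the field
with three elements and `c_i` arbitrary classes `1, 4, 7` modulo `9`. There are primes `p_0 < p_1 < ⋯`,
`p_i ≡ c_i` modulo `9`, larger than a given number, and cubic logarithms `χ_i` modulo `p_i` (homomorphisms to
the field with three elements which are zero exactly at the cubes) with `χ_i(p_j) = A_ij` and
`χ_i(q) = d_i`. For these primes, for all finite sets `I` and all exponents `f, e_i ∈ {1, 2}` for which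
`D = q^f ∏_{i ∈ I} p_i^(e_i)` is not `±1` modulo `9`: the equation of `E_D` is minimal, `L(E_D, s)` is entire,
`u` is integral at `3`, and it is a unit at `3` if and only if the matrix `M_ii = f d_i + ∑_{k ≠ i} e_k A_ik`,
`M_ij = - e_j A_ij` (`i, j ∈ I`) is invertible, and if and only if `E_D(ℚ)` is finite and
`Ш(E_D/ℚ)[3^∞] = 0`. So in this case `L(E_D, 1) ≠ 0` and the `3`-part of the formula holds, and in the other
case the formula predicts elements of order `3` in `Ш`, or a positive rank, as it should.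

Two patterns, for each prime `q ≡ 2, 5` modulo `9` and with infinitely many primes `p_i ≡ 1` modulo `9`: the
`3`-part of the formula holds, with `u` a unit, for all the finite sets `I` and all the exponents at the
same time; it holds with `u` a unit exactly if `#I ≤ 1` or `f + ∑_{i ∈ I} e_i` is not divisible by `3`.

The criterion for one curve is in the starting file `MP_4a9ea6_nt/ThreePartCubeFree`. New: the primes
(`Pool/Agent/T2H26/CM`, by the density theorem for `ℚ(ω, ∛π : π ∈ P)` and cubic reciprocity), the form of the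
criterion as a determinant, and the patterns.
-/

set_option autoImplicit false

open scoped Classical

namespace Pool.Agent.Results.MP_9c97e9_nt.EveryMatrixThreePart

open Pool.Agent.Y703.CT (WD IsL ThreeInt ThreeUnit Triv3 tamProd tors)
open Pool.Agent.W97.MT (IsGloballyMinimal)
open Pool.Agent.Y700 (Omega)

/-- `χ` is a cubic logarithm modulo `p`: a homomorphism from the numbers prime to `p` to the field with
three elements, which is zero exactly at the cubes modulo `p`. -/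
def IsLog (p : ℕ) (χ : ℕ → ZMod 3) : Prop :=
  (∀ m n : ℕ, ¬ p ∣ m → ¬ p ∣ n → χ (m * n) = χ m + χ n) ∧
  ∀ n : ℕ, ¬ p ∣ n → (χ n = 0 ↔ ∃ x : ℤ, (p : ℤ) ∣ (n : ℤ) - x ^ 3)

/-- `q^f ∏_{i ∈ I} p_i^(e_i)` -/
def prod (q : ℕ) (p : ℕ → ℕ) (f : ℕ) (e : ℕ → ℕ) (I : Finset ℕ) : ℕ := q ^ f * ∏ i ∈ I, p i ^ e i

/-- The matrix with the entries `f d_i + ∑_{k ≠ i} e_k A_ik` on the diagonal and `- e_j A_ij` off the
diagonal (`i, j ∈ I`). -/
def matrix (A : ℕ → ℕ → ZMod 3) (d : ℕ → ZMod 3) (f : ℕ) (e : ℕ → ℕ) (I : Finset ℕ) :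
    Matrix I I (ZMod 3) := fun i j =>
  if (i : ℕ) = j then (f : ZMod 3) * d i + ∑ k ∈ I.erase i, (e k : ZMod 3) * A i k
  else -((e j : ZMod 3) * A i j)

/-- The exponents are `1` or `2`. -/
def Exponents (f : ℕ) (e : ℕ → ℕ) : Prop := (f = 1 ∨ f = 2) ∧ ∀ i, e i = 1 ∨ e i = 2

/-- For the curve `E_D : y² + D y = x³` (`WD D`): the equation is minimal, `L(E_D, s)` is entire, and for
`u = L(E_D, 1) #E_D(ℚ)_tors² / (Ω ∏ c_p)`: `u` is integral at the places above `3`; it is a unit there if and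
only if `good` holds, and if and only if `E_D(ℚ)` is finite and `Ш(E_D/ℚ)[3^∞] = 0` (`Triv3 D`). -/
def ThreePart (D : ℕ) (good : Prop) : Prop :=
  IsGloballyMinimal (WD D) ∧
    ∃ f : ℂ → ℂ, IsL (WD D) f ∧ (good → f 1 ≠ 0) ∧ ∃ u : ℂ,
      f 1 = u * (((Omega (WD D) : ℝ) : ℂ) * (tamProd (WD D) : ℂ) / (tors D : ℂ) ^ 2) ∧
      ThreeInt u ∧ (ThreeUnit u ↔ good) ∧ (Triv3 D ↔ good)

open Pool.Agent.T2H26.CM in
theorem three_part {q : ℕ} {p : ℕ → ℕ} {A : ℕ → ℕ → ZMod 3} {d : ℕ → ZMod 3} (h : Hyp q p A d)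
    {f : ℕ} {e : ℕ → ℕ} (he : Exponents f e) (I : Finset ℕ) (h1 : prod q p f e I % 9 ≠ 1)
    (h8 : prod q p f e I % 9 ≠ 8) :
    ThreePart (prod q p f e I) ((matrix A d f e I).det ≠ 0) := by
  have hcls : Pool.Agent.Y703.CT.Cls (prod q p f e I) := h.cls he.1 he.2 I h1 h8
  have hcrit : Pool.Agent.Y703.CT.NoSplit (prod q p f e I) ↔ (matrix A d f e I).det ≠ 0 :=
    h.crit Pool.Agent.Y333.CX.t_LAM he.1 he.2 I h1 h8
  obtain ⟨g0, F, g1, u, g2, g3, g4, g5⟩ :=
    Pool.Agent.Results.MP_4a9ea6_nt.ThreePartCubeFree.result.2.1 _ hcls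
  have hT : Triv3 (prod q p f e I) ↔ (matrix A d f e I).det ≠ 0 := g5.trans hcrit
  have hU : ThreeUnit u ↔ (matrix A d f e I).det ≠ 0 := g4.trans hT
  refine ⟨g0, F, g1, fun hg h0 => ?_, u, g2, g3, hU, hT⟩
  have hu : u ≠ 0 := (hU.2 hg).1
  have hD0 : prod q p f e I ≠ 0 := hcls.1.1
  have hDpos : (0 : ℝ) < (prod q p f e I : ℕ) := by exact_mod_cast Nat.pos_of_ne_zero hD0
  have hOm : Omega (WD (prod q p f e I)) ≠ 0 := by
    rw [Pool.Agent.Y333.CT.per _ (Nat.pos_of_ne_zero hD0)]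
    have e1 : 0 < Real.Gamma (1 / 3) := Real.Gamma_pos_of_pos (by norm_num)
    have e2 : (0 : ℝ) < ((prod q p f e I : ℕ) : ℝ) ^ (1 / 3 : ℝ) := Real.rpow_pos_of_pos hDpos _
    have e3 : 0 < Real.pi := Real.pi_pos
    positivity
  have htam : tamProd (WD (prod q p f e I)) ≠ 0 := by
    obtain ⟨m, hm, hmt⟩ := Pool.Agent.Y145.CT.tamThm Pool.Agent.Y809.BSD14.t_E0 _ hcls.1
    rw [hmt]
    refine mul_ne_zero (pow_ne_zero _ three_ne_zero) ?_
    rintro rfl
    exact hm (dvd_zero 3)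
  have htor : tors (prod q p f e I) ≠ 0 := by
    have hfin := (hT.2 hg).1
    unfold Pool.Agent.Y703.CT.tors
    exact Nat.card_pos.ne'
  rw [g2] at h0
  have h9 : u * (((Omega (WD (prod q p f e I)) : ℝ) : ℂ) *
      (tamProd (WD (prod q p f e I)) : ℂ) / (tors (prod q p f e I) : ℂ) ^ 2) ≠ 0 :=
    mul_ne_zero hu (div_ne_zero (mul_ne_zero (by exact_mod_cast hOm) (by exact_mod_cast htam))
      (pow_ne_zero _ (by exact_mod_cast htor)))
  exact h9 h0

/-- the first pattern -/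
theorem det_diag (f : ℕ) (hf : f = 1 ∨ f = 2) (e : ℕ → ℕ) (I : Finset ℕ) :
    (matrix (fun _ _ => 0) (fun _ => 1) f e I).det ≠ 0 := by
  have h : matrix (fun _ _ => 0) (fun _ => 1) f e I = Matrix.diagonal fun _ => (f : ZMod 3) := by
    ext i j
    unfold matrix
    by_cases hij : i = j
    · subst hij
      simp
    · have : (i : ℕ) ≠ j := fun h => hij (Subtype.ext h)
      rw [if_neg this, Matrix.diagonal_apply_ne _ hij]
      ring
  rw [h, Matrix.det_diagonal, Finset.prod_const]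
  refine pow_ne_zero _ ?_
  rcases hf with rfl | rfl <;> decide

/-- the second pattern -/
theorem det_all (f : ℕ) (hf : f = 1 ∨ f = 2) (e : ℕ → ℕ) (he : ∀ i, e i = 1 ∨ e i = 2)
    (I : Finset ℕ) : (matrix (fun _ _ => 1) (fun _ => 1) f e I).det ≠ 0 ↔
      I.card ≤ 1 ∨ ¬ 3 ∣ f + ∑ i ∈ I, e i := by
  have hmul : ∀ (v : I → ZMod 3) (i : I),
      (matrix (fun _ _ => 1) (fun _ => 1) f e I).mulVec v i =
        ((f + ∑ k ∈ I, e k : ℕ) : ZMod 3) * v i - ∑ j : I, (e j : ZMod 3) * v j := by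
    intro v i
    unfold Matrix.mulVec dotProduct matrix
    have h1 : ((f + ∑ k ∈ I, e k : ℕ) : ZMod 3) =
        ((f : ZMod 3) * 1 + ∑ k ∈ I.erase i, (e k : ZMod 3) * 1) + (e i : ZMod 3) := by
      push_cast
      rw [← Finset.add_sum_erase I _ i.2]
      simp only [mul_one]
      ring
    rw [h1, ← Finset.add_sum_erase Finset.univ _ (Finset.mem_univ i),
      ← Finset.add_sum_erase Finset.univ (fun j : I => (e j : ZMod 3) * v j) (Finset.mem_univ i)]
    beta_reduce
    rw [if_pos rfl]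
    have h2 : ∀ j ∈ (Finset.univ : Finset I).erase i, (if (i : ℕ) = j then
        (f : ZMod 3) * 1 + ∑ k ∈ I.erase i, (e k : ZMod 3) * 1 else -((e j : ZMod 3) * 1)) * v j =
        -((e j : ZMod 3) * v j) := by
      intro j hj
      have h3 : (i : ℕ) ≠ j := fun h => (Finset.ne_of_mem_erase hj) (Subtype.ext h.symm)
      rw [if_neg h3]
      ring
    rw [Finset.sum_congr rfl h2, Finset.sum_neg_distrib]
    ring
  have hf0 : (f : ZMod 3) ≠ 0 := by rcases hf with rfl | rfl <;> decide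
  have he0 : ∀ i, (e i : ZMod 3) ≠ 0 := fun i => by rcases he i with h | h <;> rw [h] <;> decide
  rw [← ZMod.natCast_eq_zero_iff]
  set s : ZMod 3 := ((f + ∑ k ∈ I, e k : ℕ) : ZMod 3) with hs
  have hsum : ∑ j : I, (e j : ZMod 3) = s - f := by
    rw [hs, Finset.sum_coe_sort I (fun j => (e j : ZMod 3))]
    push_cast
    ring
  constructor
  · intro hdet
    by_contra hcon
    push Not at hcon
    obtain ⟨h1, h2⟩ := hcon
    apply hdet
    obtain ⟨a, ha, b, hb, hab⟩ := Finset.one_lt_card.1 h1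
    refine Matrix.exists_mulVec_eq_zero_iff.1 ⟨fun j => if (j : ℕ) = a then (e b : ZMod 3) else
      if (j : ℕ) = b then -(e a : ZMod 3) else 0, ?_, ?_⟩
    · intro h
      have := congrFun h ⟨a, ha⟩
      simp only [if_true, Pi.zero_apply] at this
      exact he0 b this
    · funext i
      rw [hmul, h2, zero_mul, zero_sub, Pi.zero_apply, neg_eq_zero]
      rw [Finset.sum_coe_sort I (fun j => (e j : ZMod 3) * (if j = a then (e b : ZMod 3) else
        if j = b then -(e a : ZMod 3) else 0)), ← Finset.add_sum_erase I _ ha, if_pos rfl,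
        ← Finset.add_sum_erase (I.erase a) _ (Finset.mem_erase.2 ⟨hab.symm, hb⟩), if_neg hab.symm,
        if_pos rfl, Finset.sum_eq_zero]
      · ring
      · intro j hj
        rw [Finset.mem_erase, Finset.mem_erase] at hj
        rw [if_neg hj.2.1, if_neg hj.1, mul_zero]
  · intro h hdet
    obtain ⟨v, hv0, hv⟩ := Matrix.exists_mulVec_eq_zero_iff.2 hdet
    have h1 : ∀ i : I, s * v i = ∑ j : I, (e j : ZMod 3) * v j := by
      intro i
      have h2 := congrFun hv i
      rw [hmul, Pi.zero_apply] at h2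
      exact sub_eq_zero.1 h2
    apply hv0
    funext i
    have hconst : ∀ j : I, v j = v i := by
      intro j
      rcases h with h | h
      · have : (j : ℕ) = i := Finset.card_le_one.1 h j j.2 i i.2
        rw [Subtype.ext this]
      · exact mul_left_cancel₀ h ((h1 j).trans (h1 i).symm)
    have h3 := h1 i
    rw [Finset.sum_congr rfl fun j _ => by rw [hconst j], ← Finset.sum_mul, hsum] at h3
    have h4 : (f : ZMod 3) * v i = 0 := by linear_combination h3
    exact (mul_eq_zero.1 h4).resolve_left hf0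

theorem mod_nine {q : ℕ} (hq : q % 9 = 2 ∨ q % 9 = 5) {p : ℕ → ℕ} (hp : ∀ i, p i % 9 = 1)
    {f : ℕ} {e : ℕ → ℕ} (he : Exponents f e) (I : Finset ℕ) :
    prod q p f e I % 9 ≠ 1 ∧ prod q p f e I % 9 ≠ 8 := by
  have h1 : (∏ i ∈ I, p i ^ e i) % 9 = 1 := by
    induction I using Finset.induction_on with
    | empty => simp
    | insert a s ha ih =>
      rw [Finset.prod_insert ha, Nat.mul_mod, ih, Nat.pow_mod, hp a, one_pow]
      rfl
  unfold prod
  rw [Nat.mul_mod, h1, Nat.pow_mod]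
  rcases he.1 with rfl | rfl <;> rcases hq with h | h <;> rw [h] <;> decide

/-- **Main theorem.** -/
theorem result :
    -- every matrix of cubic residues, and the criterion for all the products
    (∀ q : ℕ, q.Prime → q % 3 = 2 → ∀ (A : ℕ → ℕ → ZMod 3) (d c : ℕ → ZMod 3) (B : ℕ),
      ∃ (p : ℕ → ℕ) (χ : ℕ → ℕ → ZMod 3), StrictMono p ∧
        (∀ i, B < p i ∧ (p i).Prime ∧ p i % 9 = 1 + 3 * (c i).val ∧ IsLog (p i) (χ i) ∧
          χ i q = d i) ∧
        (∀ i j, i ≠ j → χ i (p j) = A i j) ∧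
        ∀ (f : ℕ) (e : ℕ → ℕ) (I : Finset ℕ), Exponents f e →
          prod q p f e I % 9 ≠ 1 → prod q p f e I % 9 ≠ 8 →
          ThreePart (prod q p f e I) ((matrix A d f e I).det ≠ 0)) ∧
    -- two patterns
    (∀ q : ℕ, q.Prime → (q % 9 = 2 ∨ q % 9 = 5) →
      (∃ p : ℕ → ℕ, StrictMono p ∧ (∀ i, (p i).Prime ∧ p i % 9 = 1) ∧
        ∀ (f : ℕ) (e : ℕ → ℕ) (I : Finset ℕ), Exponents f e →
          ThreePart (prod q p f e I) True) ∧
      ∃ p : ℕ → ℕ, StrictMono p ∧ (∀ i, (p i).Prime ∧ p i % 9 = 1) ∧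
        ∀ (f : ℕ) (e : ℕ → ℕ) (I : Finset ℕ), Exponents f e →
          ThreePart (prod q p f e I) (I.card ≤ 1 ∨ ¬ 3 ∣ f + ∑ i ∈ I, e i)) := by
  have main : ∀ q : ℕ, q.Prime → q % 3 = 2 → ∀ (A : ℕ → ℕ → ZMod 3) (d c : ℕ → ZMod 3) (B : ℕ),
      ∃ (p : ℕ → ℕ) (χ : ℕ → ℕ → ZMod 3), StrictMono p ∧
        (∀ i, B < p i ∧ (p i).Prime ∧ p i % 9 = 1 + 3 * (c i).val ∧ IsLog (p i) (χ i) ∧
          χ i q = d i) ∧
        (∀ i j, i ≠ j → χ i (p j) = A i j) ∧
        ∀ (f : ℕ) (e : ℕ → ℕ) (I : Finset ℕ), Exponents f e →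
          prod q p f e I % 9 ≠ 1 → prod q p f e I % 9 ≠ 8 →
          ThreePart (prod q p f e I) ((matrix A d f e I).det ≠ 0) := by
    intro q hq hq3 A d c B
    obtain ⟨p, χ, h1, h2, h3, h4, h5, h6, h7⟩ :=
      Pool.Agent.T2H26.CM.exists_rat Pool.Agent.Y333.CX.t_LAM hq hq3 A d c B
    exact ⟨p, χ, h1, fun i => ⟨h2 i, (h7.hp i).1, h3 i, h4 i, h5 i⟩, h6,
      fun f e I he h1 h8 => three_part h7 he I h1 h8⟩
  refine ⟨main, fun q hq hq9 => ⟨?_, ?_⟩⟩
  · obtain ⟨p, χ, h1, h2, -, h4⟩ := main q hq (by omega) (fun _ _ => 0) (fun _ => 1) (fun _ => 0) 0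
    have hp : ∀ i, p i % 9 = 1 := fun i => by
      have := (h2 i).2.2.1
      simpa using this
    refine ⟨p, h1, fun i => ⟨(h2 i).2.1, hp i⟩, fun f e I he => ?_⟩
    obtain ⟨h5, h6⟩ := mod_nine hq9 hp he I
    have h7 := h4 f e I he h5 h6
    rwa [eq_true (det_diag f he.1 e I)] at h7
  · obtain ⟨p, χ, h1, h2, -, h4⟩ := main q hq (by omega) (fun _ _ => 1) (fun _ => 1) (fun _ => 0) 0
    have hp : ∀ i, p i % 9 = 1 := fun i => by
      have := (h2 i).2.2.1
      simpa using this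
    refine ⟨p, h1, fun i => ⟨(h2 i).2.1, hp i⟩, fun f e I he => ?_⟩
    obtain ⟨h5, h6⟩ := mod_nine hq9 hp he I
    have h7 := h4 f e I he h5 h6
    rwa [propext (det_all f he.1 e he.2 I)] at h7

end Pool.Agent.Results.MP_9c97e9_nt.EveryMatrixThreePart
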