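import Pool.Agent.Results.MP_03e5d0_nt.FixedNumberOfPrimes
import Pool.Agent.Results.MP_4a9ea6_nt.TwoPartTwistsX14

/-!
# The 2-part of the formula at the central point for the quadratic twists of the curve `X_0(14)` by
# numbers with a fixed number of prime factors in given classes: the exact proportion with a power saving

`E = X_0(14)` has no complex multiplication. Let `n` residue classes modulo `56` be given, `s` of them
consisting of primes that split completely in `ℚ(√-1, √2, √-7)`, and the other ones, at least one, of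
primes that are inert in `ℚ(√2)` and in `ℚ(√-7)`, an even number of these being `5` modulo `8`. For the
tuples of distinct primes `p_i ≤ X_i` in these classes, let `D = ± p_1 ⋯ p_n ≡ 1 (mod 4)`, and `E_D` the
twist of `E` by `D`. We say that the 2-part of the formula holds with
`z = #E_D(ℚ)_tors² L(E_D, 1) / (Ω ∏ c_p)` a unit if the equation of `E_D` is minimal, `E_D(ℚ)` is finite,
`Ш(E_D/ℚ)[2^∞] = 0`, `L(E_D, s)` is entire, `L(E_D, 1) ≠ 0` and `z` is a rational number which is a unit
at two. This is so iff `E_D(ℚ)` is finite and `Ш(E_D/ℚ)[2] = 0`. We show that it is so for the proportion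
`P(s) = ∏_{i < (s+1)/2} (1 - 2^{-(2i+1)})` of the tuples, up to a relative error `C z^{-1/24}`, where `z`
is the least of the `X_i`, all `X_i` being at most `exp(z^{1/(24n)})`.

The criterion for a single curve is that of helper428 (`MP_4a9ea6_nt/TwoPartTwistsX14`), the
equidistribution is that of `MP_03e5d0_nt/FixedNumberOfPrimes`.
-/

set_option autoImplicit false

open Finset Function

namespace Pool.Agent.Results.MP_9c97e9_nt.FixedNumberTwoPart

open Pool.Agent.Results.MP_03e5d0_nt.FixedNumberOfPrimes (SplitClass InertClass splitCount Classes Box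
  disc P)
open Pool.Agent.Results.MP_4a9ea6_nt.TwoPartTwistsX14 (TwoPart NoSelmer twist Adm)

section proof

open Pool.Agent.Results.MP_03e5d0_nt (FixedNumberOfPrimes.family FixedNumberOfPrimes.natAbs_disc
  FixedNumberOfPrimes.primeFactors_disc FixedNumberOfPrimes.mem_Box)
open Pool.Agent.Results.MP_4a9ea6_nt (TwoPartTwistsX14.adm_iff TwoPartTwistsX14.criterion
  TwoPartTwistsX14.R_det)

variable {n : ℕ} {a X : Fin n → ℕ}

theorem disc_ne_one (ha : Classes a) {p : Fin n → ℕ} (hp : p ∈ Box a X) : disc p ≠ 1 := by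
  obtain ⟨i, -⟩ := ha.2.1
  have h1 := FixedNumberOfPrimes.primeFactors_disc hp
  intro h
  rw [h] at h1
  simp only [Int.natAbs_one, Nat.primeFactors_one] at h1
  have h2 : p i ∈ univ.image p := mem_image_of_mem _ (mem_univ i)
  rw [← h1] at h2
  simp at h2

theorem crit (ha : Classes a) {p : Fin n → ℕ} (hp : p ∈ Box a X) :
    Adm (disc p) ∧
    (NoSelmer (disc p) ↔
      Pool.Agent.Results.MP_696deb_nt.ExactProportion.RankZeroShaTwo (disc p)) ∧
    (TwoPart (twist (disc p)) ↔
      Pool.Agent.Results.MP_696deb_nt.ExactProportion.RankZeroShaTwo (disc p)) := by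
  have h1 := FixedNumberOfPrimes.family ha hp
  have h0 := (TwoPartTwistsX14.adm_iff _).2 h1
  obtain ⟨-, -, h3, h4⟩ := TwoPartTwistsX14.criterion h0 (disc_ne_one ha hp)
  have h5 := Pool.Agent.Results.MP_696deb_nt.ExactProportion.rank_iff h1
  rw [TwoPartTwistsX14.R_det h1, ← h5] at h3 h4
  exact ⟨h0, h3, h4.symm⟩

end proof

open Classical in
/-- the number of the tuples of the box such that the 2-part of the formula holds for `E_D` with `z` a
unit -/
noncomputable def good {n : ℕ} (a X : Fin n → ℕ) : ℕ :=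
  ((Box a X).filter fun p => TwoPart (twist (disc p))).card

theorem result (n : ℕ) (a : Fin n → ℕ) (ha : Classes a) :
    (∀ X : Fin n → ℕ, ∀ p ∈ Box a X, Adm (disc p) ∧ disc p ≠ 1 ∧ (disc p).natAbs = ∏ i, p i ∧
      (TwoPart (twist (disc p)) ↔ NoSelmer (disc p))) ∧
    ∃ C : ℝ, ∀ (X : Fin n → ℕ) (z : ℕ), 2 ≤ z → (∀ i, z ≤ X i) →
      (∀ i, Real.log (X i) ≤ (z : ℝ) ^ (1 / (24 * n : ℝ))) →
      |(good a X : ℝ) - P (splitCount a) * ((Box a X).card : ℝ)| ≤
        C * (z : ℝ) ^ (-(1 / 24 : ℝ)) * ((Box a X).card : ℝ) := by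
  classical
  obtain ⟨h1, h2, C, h3⟩ :=
    Pool.Agent.Results.MP_03e5d0_nt.FixedNumberOfPrimes.result n a ha
  refine ⟨fun X p hp => ?_, C, fun X z hz hzX hlog => ?_⟩
  · obtain ⟨k0, k1, k2⟩ := crit ha hp
    exact ⟨k0, disc_ne_one ha hp, (h1 X p hp).2, k2.trans k1.symm⟩
  · have key := h3 X z hz hzX hlog
    have e : good a X = Pool.Agent.Results.MP_03e5d0_nt.FixedNumberOfPrimes.good a X := by
      unfold good Pool.Agent.Results.MP_03e5d0_nt.FixedNumberOfPrimes.good
      congr 1
      refine filter_congr fun p hp => ?_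
      rw [(crit ha hp).2.2]
      exact ⟨fun h => ⟨h, h2 X p hp h⟩, fun h => h.1⟩
    rw [e]
    exact key

end Pool.Agent.Results.MP_9c97e9_nt.FixedNumberTwoPart
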