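import Pool.Agent.Results.MP_03e5d0_nt.AllSubproducts
import Pool.Agent.Results.MP_4a9ea6_nt.TwoPartTwistsX14

/-!
# The 2-part of the formula at the central point for all the `2 ^ n - 1` twists of the curve `X_0(14)`
# by the subproducts of a random tuple of `n` primes: the joint distribution with a power saving

`E = X_0(14)` has no complex multiplication. Let `n` residue classes modulo `56` of primes that split
completely in `ℚ(√-1, √2, √-7)` be given. For the tuples of distinct primes `p_i ≤ X_i` in these classes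
consider the twists `E_T` of `E` by `∏_{i ∈ T} p_i`, `∅ ≠ T ⊆ {1, …, n}`. We say that the 2-part of the
formula holds for `E_T` with `z = #E_T(ℚ)_tors² L(E_T, 1) / (Ω ∏ c_p)` a unit if the equation of `E_T` is
minimal, `E_T(ℚ)` is finite, `Ш(E_T/ℚ)[2^∞] = 0`, `L(E_T, s)` is entire, `L(E_T, 1) ≠ 0` and `z` is a
rational number which is a unit at two.

* For every tuple and every `T` this is so if and only if `E_T(ℚ)` is finite and `Ш(E_T/ℚ)[2] = 0`, if
  and only if a matrix over `𝔽₂` is not singular, which depends only on the graph of the pairs of mutual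
  quadratic nonresidues among the `p_i` and on the parities of the numbers `#E(𝔽_{p_i}) / 4`.
* The joint distribution of the `2 ^ n - 1` events: for any set `V` of nonempty subsets, the number of
  the tuples such that the 2-part holds with `z` a unit exactly for the `T` in `V` is, with a power saving
  and uniformly for `log X_i ≤ z ^ (1 / (24 n))`, `z = min X_i`, the sum over the tuples of the
  probability that for a random graph the matrices are nonsingular exactly for the `T` in `V`.
* In particular the 2-part holds with `z` a unit for all the `2 ^ n - 1` twists with the probability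
  `(number of the involutions of n objects) / 2 ^ (n (n - 1) / 2)`, times the probability that no
  `#E(𝔽_{p_i})` is divisible by `8`.

The criterion for a single curve is that of helper428 (`MP_4a9ea6_nt/TwoPartTwistsX14`), the
equidistribution of the graphs that of `MP_03e5d0_nt/AllSubproducts`.
-/

set_option autoImplicit false

open Finset Function

namespace Pool.Agent.Results.MP_9c97e9_nt.SubproductsTwoPart

open Pool.Agent.Results.MP_03e5d0_nt.AllSubproducts (SplitClass Box N diag graph mat sub prob Matching)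
open Pool.Agent.Results.MP_4a9ea6_nt.TwoPartTwistsX14 (TwoPart NoSelmer twist)

section proof

open Pool.Agent.Results.MP_03e5d0_nt (AllSubproducts.sub_facts AllSubproducts.criterion)
open Pool.Agent.Results.MP_4a9ea6_nt (TwoPartTwistsX14.adm_iff TwoPartTwistsX14.criterion
  TwoPartTwistsX14.R_det)

variable {n : ℕ} {a X : Fin n → ℕ}

theorem sub_ne_one (ha : ∀ i, SplitClass (a i)) {p : Fin n → ℕ} (hp : p ∈ Box a X)
    {T : Finset (Fin n)} (hT : T.Nonempty) : sub p T ≠ 1 := by
  obtain ⟨-, h1⟩ := AllSubproducts.sub_facts ha hp T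
  intro h
  rw [h] at h1
  simp only [Int.natAbs_one, Nat.primeFactors_one] at h1
  exact (hT.image p).ne_empty h1.symm

theorem rank_iff (ha : ∀ i, SplitClass (a i)) {p : Fin n → ℕ} (hp : p ∈ Box a X)
    (T : Finset (Fin n)) : Pool.Agent.Results.MP_696deb_nt.ExactProportion.RankZeroShaTwo (sub p T) ↔
      (Pool.Agent.Y687.MQ.matD (sub p T)).det ≠ 0 :=
  Pool.Agent.Results.MP_696deb_nt.ExactProportion.rank_iff (AllSubproducts.sub_facts ha hp T).1

theorem crit (ha : ∀ i, SplitClass (a i)) {p : Fin n → ℕ} (hp : p ∈ Box a X)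
    {T : Finset (Fin n)} (hT : T.Nonempty) :
    (NoSelmer (sub p T) ↔ (mat (graph p) (diag p) T).det ≠ 0) ∧
    (TwoPart (twist (sub p T)) ↔ (mat (graph p) (diag p) T).det ≠ 0) := by
  have h1 := (AllSubproducts.sub_facts ha hp T).1
  obtain ⟨-, -, h3, h4⟩ := TwoPartTwistsX14.criterion ((TwoPartTwistsX14.adm_iff _).2 h1)
    (sub_ne_one ha hp hT)
  rw [TwoPartTwistsX14.R_det h1, ← rank_iff ha hp T, AllSubproducts.criterion ha hp T] at h3 h4
  exact ⟨h3, h4.symm⟩

theorem det_empty (G : SimpleGraph (Fin n)) (v : Fin n → ZMod 2) : (mat G v ∅).det ≠ 0 := by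
  rw [Matrix.det_isEmpty]
  exact one_ne_zero

theorem all_iff {Q : Finset (Fin n) → Prop} (G : SimpleGraph (Fin n)) (v : Fin n → ZMod 2)
    (V : Finset (Finset (Fin n))) (hQ : ∀ T, T.Nonempty → (Q T ↔ (mat G v T).det ≠ 0)) :
    (∀ T, T.Nonempty → (Q T ↔ T ∈ V)) ↔
      ∀ T, ((mat G v T).det ≠ 0 ↔ T ∈ insert ∅ V) := by
  constructor
  · intro h T
    rcases T.eq_empty_or_nonempty with rfl | hT
    · exact iff_of_true (det_empty G v) (mem_insert_self _ _)
    · rw [← hQ T hT, h T hT, mem_insert]
      exact ⟨Or.inr, fun h1 => h1.resolve_left hT.ne_empty⟩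
  · intro h T hT
    rw [hQ T hT, h T, mem_insert]
    exact ⟨fun h1 => h1.resolve_left hT.ne_empty, Or.inr⟩

end proof

open Classical in
theorem result (n : ℕ) (hn : 0 < n) (a : Fin n → ℕ) (ha : ∀ i, SplitClass (a i)) :
    -- the criterion
    (∀ X : Fin n → ℕ, ∀ p ∈ Box a X, ∀ T : Finset (Fin n), T.Nonempty →
      (TwoPart (twist (sub p T)) ↔ NoSelmer (sub p T)) ∧
      (TwoPart (twist (sub p T)) ↔ (mat (graph p) (diag p) T).det ≠ 0)) ∧
    -- the joint distribution
    (∀ V : Finset (Finset (Fin n)), ∃ C : ℝ, ∀ (X : Fin n → ℕ) (z : ℕ), 2 ≤ z →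
      (∀ i, z ≤ X i) → (∀ i, Real.log (X i) ≤ (z : ℝ) ^ (1 / (24 * n : ℝ))) →
      |(((Box a X).filter fun p => ∀ T : Finset (Fin n), T.Nonempty →
          (TwoPart (twist (sub p T)) ↔ T ∈ V)).card : ℝ) -
        ∑ p ∈ Box a X, prob fun G : SimpleGraph (Fin n) =>
          ∀ T : Finset (Fin n), T.Nonempty → ((mat G (diag p) T).det ≠ 0 ↔ T ∈ V)| ≤
        C * (z : ℝ) ^ (-(1 / 24 : ℝ)) * ((Box a X).card : ℝ)) ∧
    -- all the twists
    ∃ C : ℝ, ∀ (X : Fin n → ℕ) (z : ℕ), 2 ≤ z → (∀ i, z ≤ X i) →
      (∀ i, Real.log (X i) ≤ (z : ℝ) ^ (1 / (24 * n : ℝ))) →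
      |(((Box a X).filter fun p => ∀ T : Finset (Fin n), T.Nonempty →
          TwoPart (twist (sub p T))).card : ℝ) -
        prob (Matching (n := n)) * (((Box a X).filter fun p => ∀ i, ¬ 8 ∣ N (p i)).card : ℝ)| ≤
        C * (z : ℝ) ^ (-(1 / 24 : ℝ)) * ((Box a X).card : ℝ) := by
  obtain ⟨h1, h2, C3, h3⟩ :=
    Pool.Agent.Results.MP_03e5d0_nt.AllSubproducts.result n hn a ha
  refine ⟨fun X p hp T hT => ?_, fun V => ?_, C3, fun X z hz hzX hlog => ?_⟩
  · obtain ⟨k1, k2⟩ := crit ha hp hT
    exact ⟨k2.trans k1.symm, k2⟩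
  · obtain ⟨C, h⟩ := h2 (insert ∅ V)
    refine ⟨C, fun X z hz hzX hlog => ?_⟩
    have key := h X z hz hzX hlog
    have e1 : ((Box a X).filter fun p => ∀ T : Finset (Fin n), T.Nonempty →
        (TwoPart (twist (sub p T)) ↔ T ∈ V)) =
        (Box a X).filter fun p => ∀ T,
          Pool.Agent.Results.MP_696deb_nt.ExactProportion.RankZeroShaTwo (sub p T) ↔
            T ∈ insert ∅ V := by
      refine filter_congr fun p hp => ?_
      rw [all_iff (graph p) (diag p) V fun T hT => (crit ha hp hT).2]
      refine forall_congr' fun T => ?_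
      rw [Pool.Agent.Results.MP_03e5d0_nt.AllSubproducts.criterion ha hp T]
    have e2 : ∀ p : Fin n → ℕ, (fun G : SimpleGraph (Fin n) =>
        ∀ T : Finset (Fin n), T.Nonempty → ((mat G (diag p) T).det ≠ 0 ↔ T ∈ V)) =
        fun G : SimpleGraph (Fin n) => ∀ T, (mat G (diag p) T).det ≠ 0 ↔ T ∈ insert ∅ V := by
      intro p
      funext G
      exact propext (all_iff G (diag p) V fun T _ => Iff.rfl)
    rw [e1]
    simp only [e2]
    exact key
  · have key := h3 X z hz hzX hlog
    have e1 : ((Box a X).filter fun p => ∀ T : Finset (Fin n), T.Nonempty →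
        TwoPart (twist (sub p T))) =
        (Box a X).filter fun p => ∀ T,
          Pool.Agent.Results.MP_696deb_nt.ExactProportion.RankZeroShaTwo (sub p T) ∧
          Pool.Agent.Results.MP_696deb_nt.ExactProportion.BSDRankZero
            (Pool.Agent.Results.MP_696deb_nt.ExactProportion.A (sub p T))
            (Pool.Agent.Results.MP_696deb_nt.ExactProportion.B (sub p T)) := by
      refine filter_congr fun p hp => ?_
      constructor
      · intro h T
        have hR : Pool.Agent.Results.MP_696deb_nt.ExactProportion.RankZeroShaTwo (sub p T) := by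
          rw [Pool.Agent.Results.MP_03e5d0_nt.AllSubproducts.criterion ha hp T]
          rcases T.eq_empty_or_nonempty with rfl | hT
          · exact det_empty _ _
          · exact (crit ha hp hT).2.1 (h T hT)
        exact ⟨hR, (h1 X p hp T).2 hR⟩
      · intro h T hT
        exact (crit ha hp hT).2.2
          ((Pool.Agent.Results.MP_03e5d0_nt.AllSubproducts.criterion ha hp T).1 (h T).1)
    rw [e1]
    exact key

end Pool.Agent.Results.MP_9c97e9_nt.SubproductsTwoPart
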